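import Pool.Agent.H14R2.RD.S.EXB
import Pool.Agent.H14R2.RD.S.PSB

/-!
Task TREE of helper14 (helper35).
-/

namespace RC14
open scoped InnerProductSpace
open Finset

variable {G : Type*} [Group G] [Fintype G]
variable {V : Type*} [NormedAddCommGroup V] [InnerProductSpace ℂ V] [FiniteDimensional ℂ V]

namespace TREE

omit [Fintype G] [FiniteDimensional ℂ V] in
theorem nontriv (ρ : G →* (V ≃ₗᵢ[ℂ] V)) (hirr : Irr ρ ⊤) : Nontrivial V := by
  by_contra h
  rw [not_nontrivial_iff_subsingleton] at h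
  exact hirr.1 (Subsingleton.elim _ _)

omit [Fintype G] in
theorem AA_symm (ρ : G →* (V ≃ₗᵢ[ℂ] V)) (E : Module.End ℂ V) (hE : E.IsSymmetric) {q : ℕ} :
    ∀ (R : ℕ) (z : Fin R → Fin q → G), (AA ρ E R z).IsSymmetric
  | 0, _ => hE
  | R + 1, z => by
    have h := AA_symm ρ E hE R (fun i => z i.castSucc)
    exact PS_symm ρ _ _ (PS_symm ρ _ _ h)

omit [FiniteDimensional ℂ V] in
theorem smul_symm (t : ℝ) (A : Module.End ℂ V) (hA : A.IsSymmetric) :
    ((t : ℂ) • A).IsSymmetric := by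
  intro v w
  simp only [LinearMap.smul_apply, inner_smul_left, inner_smul_right, Complex.conj_ofReal]
  rw [hA v w]

theorem rtr_ex_nonneg [Nontrivial V] (A : Module.End ℂ V) (hA : A.IsSymmetric) :
    0 ≤ rtr (ex A) := by
  obtain ⟨v, hv⟩ := exists_norm_eq (E := V) (c := 1) zero_le_one
  exact (ex_pos A hA v).trans (ex_le_tr A hA v hv)

/-- the exponential trace of a projection of small rank -/
theorem base (E : Module.End ℂ V) (hE : SymIdem E) (Λ : ℝ)
    (hτ : rtr E ≤ Real.exp (-Λ) * Module.finrank ℂ V) :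
    rtr (ex ((Λ : ℂ) • E)) ≤ 2 * Module.finrank ℂ V := by
  set b := hE.1.eigenvectorBasis rfl with hb
  set μ := hE.1.eigenvalues rfl with hμ
  have hEb : ∀ i, E (b i) = ((μ i : ℝ) : ℂ) • b i := fun i =>
    hE.1.apply_eigenvectorBasis rfl i
  have hμ01 : ∀ i, μ i = 0 ∨ μ i = 1 := by
    intro i
    have h1 : E (E (b i)) = E (b i) := by
      have := congrArg (fun T : Module.End ℂ V => T (b i)) hE.2
      simpa using this
    rw [hEb i, map_smul, hEb i, smul_smul] at h1
    have hb0 : b i ≠ 0 := b.orthonormal.ne_zero i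
    have h2 := smul_left_injective ℂ hb0 h1
    have h3 : μ i * μ i = μ i := by exact_mod_cast h2
    have h4 : μ i * (μ i - 1) = 0 := by linarith
    rcases mul_eq_zero.1 h4 with h | h
    · exact Or.inl h
    · exact Or.inr (by linarith)
  have htr : ∀ (A : Module.End ℂ V) (c : Fin (Module.finrank ℂ V) → ℝ),
      (∀ i, A (b i) = ((c i : ℝ) : ℂ) • b i) → rtr A = ∑ i, c i := by
    intro A c hA
    unfold rtr
    rw [LinearMap.trace_eq_sum_inner _ b, Complex.re_sum]
    refine Finset.sum_congr rfl fun i _ => ?_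
    rw [hA i, inner_smul_right, b.inner_eq_one, mul_one, Complex.ofReal_re]
  have h1 : rtr E = ∑ i, μ i := htr E μ hEb
  have h2 : rtr (ex ((Λ : ℂ) • E)) = ∑ i, Real.exp (Λ * μ i) := by
    refine htr _ _ fun i => ?_
    have h3 : ((Λ : ℂ) • E) (b i) = ((Λ * μ i : ℝ) : ℂ) • b i := by
      rw [LinearMap.smul_apply, hEb i, smul_smul, Complex.ofReal_mul]
    rw [ex_eig _ _ _ h3, Complex.ofReal_exp]
  have h3 : ∑ i, Real.exp (Λ * μ i) ≤ ∑ i, (1 + Real.exp Λ * μ i) := by
    refine Finset.sum_le_sum fun i _ => ?_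
    rcases hμ01 i with h | h
    · rw [h]; simp
    · rw [h]; simp
  rw [h2]
  refine h3.trans ?_
  rw [Finset.sum_add_distrib, ← Finset.mul_sum, ← h1, Finset.sum_const, Finset.card_univ,
    Fintype.card_fin, nsmul_eq_mul, mul_one]
  have h4 : Real.exp Λ * rtr E ≤ Real.exp Λ * (Real.exp (-Λ) * Module.finrank ℂ V) :=
    mul_le_mul_of_nonneg_left hτ (Real.exp_pos _).le
  rw [← mul_assoc, ← Real.exp_add, add_neg_cancel, Real.exp_zero, one_mul] at h4
  linarith

/-- threshold -/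
noncomputable def Th (q : ℕ) (Λ : ℝ) (s : ℕ) : ℝ := (q : ℝ) ^ s * (1 + Λ / 32) - Λ / 32

/-- normalised exponential trace -/
noncomputable def mm (ρ : G →* (V ≃ₗᵢ[ℂ] V)) (E : Module.End ℂ V) {q : ℕ} (Λ : ℝ) (s : ℕ)
    (z : Fin s → Fin q → G) : ℝ :=
  rtr (ex (((Λ * (q : ℝ) ^ s : ℝ) : ℂ) • AA ρ E s z)) / Module.finrank ℂ V

omit [Fintype G] in
theorem mm_nonneg [Nontrivial V] (ρ : G →* (V ≃ₗᵢ[ℂ] V)) (E : Module.End ℂ V)
    (hE : E.IsSymmetric) {q : ℕ} (Λ : ℝ) (s : ℕ) (z : Fin s → Fin q → G) : 0 ≤ mm ρ E Λ s z :=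
  div_nonneg (rtr_ex_nonneg _ (smul_symm _ _ (AA_symm ρ E hE s z))) (Nat.cast_nonneg _)

/-- one step of the tree: first moment -/
theorem step (ρ : G →* (V ≃ₗᵢ[ℂ] V)) (hirr : Irr ρ ⊤) (E : Module.End ℂ V)
    (hE : E.IsSymmetric) {q : ℕ} (hq : 1 ≤ q) (Λ : ℝ) (s : ℕ) (z : Fin s → Fin q → G) :
    ∑ y : Fin q → G, mm ρ E Λ (s + 1) (Fin.snoc z y : Fin (s + 1) → Fin q → G) ≤
      (Fintype.card G : ℝ) ^ q * mm ρ E Λ s z ^ q := by
  have hnt := nontriv ρ hirr
  have hd : (0 : ℝ) < Module.finrank ℂ V := by exact_mod_cast Module.finrank_pos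
  have h := PS_exp ρ hirr hq (AA ρ E s z) (AA_symm ρ E hE s z) (Λ * (q : ℝ) ^ (s + 1))
  have hq0 : (q : ℝ) ≠ 0 := by
    have : q ≠ 0 := by omega
    exact_mod_cast this
  have e1 : Λ * (q : ℝ) ^ (s + 1) / q = Λ * (q : ℝ) ^ s := by
    rw [pow_succ]
    field_simp
  rw [e1] at h
  have e2 : ∀ y : Fin q → G, mm ρ E Λ (s + 1) (Fin.snoc z y : Fin (s + 1) → Fin q → G) =
      rtr (ex (((Λ * (q : ℝ) ^ (s + 1) : ℝ) : ℂ) • PS ρ y (PS ρ y (AA ρ E s z)))) /
        Module.finrank ℂ V := by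
    intro y
    unfold mm
    have e3 : AA ρ E (s + 1) (Fin.snoc z y : Fin (s + 1) → Fin q → G) =
        PS ρ y (PS ρ y (AA ρ E s z)) := by
      simp only [AA, Fin.snoc_last, Fin.snoc_castSucc]
    rw [e3]
  simp_rw [e2]
  rw [← Finset.sum_div, div_le_iff₀ hd]
  refine h.trans (le_of_eq ?_)
  unfold mm
  ring

open Classical in
/-- number of bad families -/
theorem count (ρ : G →* (V ≃ₗᵢ[ℂ] V)) (hirr : Irr ρ ⊤) (E : Module.End ℂ V) (hE : SymIdem E)
    (q : ℕ) (hq : 2 ≤ q) (Λ : ℝ) (hΛ : 32 ≤ Λ)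
    (hτ : rtr E ≤ Real.exp (-Λ) * Module.finrank ℂ V) (s : ℕ) :
    ((univ.filter fun z : Fin s → Fin q → G => Real.exp (Th q Λ s) < mm ρ E Λ s z).card : ℝ) ≤
      s * Real.exp (-(Λ * q / 64)) * (Fintype.card G : ℝ) ^ (s * q) := by
  have hnt := nontriv ρ hirr
  have hd : (0 : ℝ) < Module.finrank ℂ V := by exact_mod_cast Module.finrank_pos
  have hq2 : (2 : ℝ) ≤ q := by exact_mod_cast hq
  induction s with
  | zero =>
    have h0 : (univ.filter fun z : Fin 0 → Fin q → G =>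
        Real.exp (Th q Λ 0) < mm ρ E Λ 0 z) = ∅ := by
      rw [Finset.filter_eq_empty_iff]
      intro z _
      have hb := base E hE Λ hτ
      have h1 : mm ρ E Λ 0 z ≤ 2 := by
        unfold mm
        rw [div_le_iff₀ hd]
        simpa [AA] using hb
      have h2 : Real.exp (Th q Λ 0) = Real.exp 1 := by
        unfold Th
        congr 1
        ring
      have h3 := Real.exp_one_gt_d9
      rw [h2]
      linarith
    rw [h0]
    simp
  | succ s ih =>
    set N : ℝ := (Fintype.card G : ℝ) with hN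
    have hN0 : 0 ≤ N := Nat.cast_nonneg _
    set u : ℝ := Λ * q / 64 with hu
    -- counting by fibres
    have e1 : ((univ.filter fun z : Fin (s + 1) → Fin q → G =>
        Real.exp (Th q Λ (s + 1)) < mm ρ E Λ (s + 1) z).card : ℝ) =
        ∑ z : Fin s → Fin q → G, ∑ y : Fin q → G,
          if Real.exp (Th q Λ (s + 1)) <
            mm ρ E Λ (s + 1) (Fin.snoc z y : Fin (s + 1) → Fin q → G) then (1 : ℝ) else 0 := by
      rw [Finset.card_filter, Nat.cast_sum, ← Fintype.sum_prod_type']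
      rw [← (Fin.snocEquiv (fun _ : Fin (s + 1) => Fin q → G)).sum_comp]
      rw [← (Equiv.prodComm (Fin s → Fin q → G) (Fin q → G)).sum_comp]
      refine Finset.sum_congr rfl fun p _ => ?_
      have e0 : (Fin.snocEquiv fun _ : Fin (s + 1) => Fin q → G)
          (Equiv.prodComm (Fin s → Fin q → G) (Fin q → G) p) =
          (Fin.snoc p.1 p.2 : Fin (s + 1) → Fin q → G) := rfl
      rw [e0]
      split_ifs <;> simp
    have e2 : ∀ z : Fin s → Fin q → G, (∑ y : Fin q → G,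
          if Real.exp (Th q Λ (s + 1)) <
            mm ρ E Λ (s + 1) (Fin.snoc z y : Fin (s + 1) → Fin q → G) then (1 : ℝ) else 0) ≤
        (if Real.exp (Th q Λ s) < mm ρ E Λ s z then N ^ q else 0) + N ^ q * Real.exp (-u) := by
      intro z
      by_cases hz : Real.exp (Th q Λ s) < mm ρ E Λ s z
      · rw [if_pos hz]
        have h1 : (∑ y : Fin q → G, if Real.exp (Th q Λ (s + 1)) <
            mm ρ E Λ (s + 1) (Fin.snoc z y : Fin (s + 1) → Fin q → G) then (1 : ℝ) else 0) ≤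
            ∑ _y : Fin q → G, (1 : ℝ) := Finset.sum_le_sum fun y _ => by split_ifs <;> norm_num
        have h2 : (∑ _y : Fin q → G, (1 : ℝ)) = N ^ q := by
          simp [hN]
        have h3 : 0 ≤ N ^ q * Real.exp (-u) := by positivity
        linarith
      · rw [if_neg hz, zero_add]
        push Not at hz
        have h1 := step ρ hirr E hE.1 (by omega : 1 ≤ q) Λ s z
        have h2 : mm ρ E Λ s z ^ q ≤ Real.exp (Th q Λ s) ^ q :=
          pow_le_pow_left₀ (mm_nonneg ρ E hE.1 Λ s z) hz q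
        have h3 : (∑ y : Fin q → G, if Real.exp (Th q Λ (s + 1)) <
            mm ρ E Λ (s + 1) (Fin.snoc z y : Fin (s + 1) → Fin q → G) then (1 : ℝ) else 0) ≤
            ∑ y : Fin q → G, Real.exp (-(Th q Λ (s + 1))) *
              mm ρ E Λ (s + 1) (Fin.snoc z y : Fin (s + 1) → Fin q → G) := by
          refine Finset.sum_le_sum fun y _ => ?_
          have h0 := mm_nonneg ρ E hE.1 Λ (s + 1) (Fin.snoc z y : Fin (s + 1) → Fin q → G)
          split_ifs with h
          · have h4 : Real.exp (-(Th q Λ (s + 1))) * Real.exp (Th q Λ (s + 1)) = 1 := by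
              rw [← Real.exp_add, neg_add_cancel, Real.exp_zero]
            rw [← h4]
            exact mul_le_mul_of_nonneg_left h.le (Real.exp_pos _).le
          · positivity
        rw [← Finset.mul_sum] at h3
        refine h3.trans ?_
        have h5 : Real.exp (-(Th q Λ (s + 1))) * (∑ y : Fin q → G,
            mm ρ E Λ (s + 1) (Fin.snoc z y : Fin (s + 1) → Fin q → G)) ≤
            Real.exp (-(Th q Λ (s + 1))) * (N ^ q * Real.exp (Th q Λ s) ^ q) :=
          mul_le_mul_of_nonneg_left (h1.trans (mul_le_mul_of_nonneg_left h2 (by positivity)))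
            (Real.exp_pos _).le
        refine h5.trans ?_
        have h6 : Real.exp (-(Th q Λ (s + 1))) * (N ^ q * Real.exp (Th q Λ s) ^ q) =
            N ^ q * Real.exp (q * Th q Λ s - Th q Λ (s + 1)) := by
          rw [← Real.exp_nat_mul, sub_eq_add_neg, Real.exp_add]
          ring
        rw [h6]
        refine mul_le_mul_of_nonneg_left (Real.exp_le_exp.2 ?_) (by positivity)
        unfold Th
        rw [hu, pow_succ]
        nlinarith
    rw [e1]
    refine (Finset.sum_le_sum fun z _ => e2 z).trans ?_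
    rw [Finset.sum_add_distrib]
    have e3 : (∑ z : Fin s → Fin q → G,
        if Real.exp (Th q Λ s) < mm ρ E Λ s z then N ^ q else 0) =
        ((univ.filter fun z : Fin s → Fin q → G =>
          Real.exp (Th q Λ s) < mm ρ E Λ s z).card : ℝ) * N ^ q := by
      rw [← Finset.sum_filter, Finset.sum_const, nsmul_eq_mul]
    have e4 : (∑ _z : Fin s → Fin q → G, N ^ q * Real.exp (-u)) =
        N ^ (s * q) * (N ^ q * Real.exp (-u)) := by
      rw [Finset.sum_const, Finset.card_univ, Fintype.card_fun, Fintype.card_fun,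
        Fintype.card_fin, Fintype.card_fin, nsmul_eq_mul]
      push_cast
      rw [← hN, ← pow_mul, mul_comm q s]
    rw [e3, e4]
    have h7 := mul_le_mul_of_nonneg_right ih (pow_nonneg hN0 q)
    refine (add_le_add_left h7 _).trans (le_of_eq ?_)
    rw [Nat.succ_mul, pow_add]
    push_cast
    ring

end TREE

open TREE in
/-- the tree of conjugates of a projection of small rank has small norm -/
theorem TREE (ρ : G →* (V ≃ₗᵢ[ℂ] V)) (hirr : Irr ρ ⊤) (E : Module.End ℂ V) (hE : SymIdem E)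
    (q R : ℕ) (hq : 2 ≤ q) (Λ : ℝ) (hΛ : 32 ≤ Λ)
    (hτ : rtr E ≤ Real.exp (-Λ) * Module.finrank ℂ V)
    (hd : (Module.finrank ℂ V : ℝ) < Real.exp (Λ * (q : ℝ) ^ R / 16)) :
    (Nat.card {z : Fin R → Fin q → G // ¬ ∀ v : V,
        (⟪AA ρ E R z v, v⟫_ℂ).re ≤ 1 / 8 * ‖v‖ ^ 2} : ℝ) ≤
      R * Real.exp (-(Λ * q / 64)) * (Fintype.card G : ℝ) ^ (R * q) := by
  classical
  have hnt := nontriv ρ hirr
  have hd0 : (0 : ℝ) < Module.finrank ℂ V := by exact_mod_cast Module.finrank_pos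
  refine le_trans ?_ (count ρ hirr E hE q hq Λ hΛ hτ R)
  rw [Nat.card_eq_fintype_card, Fintype.card_subtype]
  norm_cast
  refine Finset.card_le_card fun z hz => ?_
  rw [Finset.mem_filter] at hz ⊢
  refine ⟨hz.1, ?_⟩
  by_contra hcon
  push Not at hcon
  apply hz.2
  intro v
  rcases eq_or_ne v 0 with hv | hv
  · subst hv
    simp
  have hv0 : 0 < ‖v‖ := norm_pos_iff.2 hv
  set w : V := ((‖v‖⁻¹ : ℝ) : ℂ) • v with hw
  have hw1 : ‖w‖ = 1 := by
    rw [hw, norm_smul, Complex.norm_real, norm_inv, norm_norm, inv_mul_cancel₀ hv0.ne']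
  have hvw : v = ((‖v‖ : ℝ) : ℂ) • w := by
    rw [hw, smul_smul, ← Complex.ofReal_mul, mul_inv_cancel₀ hv0.ne', Complex.ofReal_one, one_smul]
  set a : ℝ := (⟪AA ρ E R z w, w⟫_ℂ).re with ha
  have hva : (⟪AA ρ E R z v, v⟫_ℂ).re = a * ‖v‖ ^ 2 := by
    conv_lhs => rw [hvw]
    rw [map_smul, inner_smul_left, inner_smul_right, Complex.conj_ofReal, ← mul_assoc,
      ← Complex.ofReal_mul, Complex.re_ofReal_mul, ← ha]
    ring
  rw [hva]
  refine mul_le_mul_of_nonneg_right ?_ (by positivity)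
  -- the bound for the unit vector
  set t : ℝ := Λ * (q : ℝ) ^ R with ht
  have hsym : (((t : ℝ) : ℂ) • AA ρ E R z).IsSymmetric := smul_symm _ _ (AA_symm ρ E hE.1 R z)
  have h1 := ex_jensen _ hsym w hw1
  have h2 := ex_le_tr _ hsym w hw1
  have h3 : (⟪(((t : ℝ) : ℂ) • AA ρ E R z) w, w⟫_ℂ).re = t * a := by
    rw [LinearMap.smul_apply, inner_smul_left, Complex.conj_ofReal, Complex.re_ofReal_mul]
  rw [h3] at h1
  have h4 : rtr (ex (((t : ℝ) : ℂ) • AA ρ E R z)) = mm ρ E Λ R z * Module.finrank ℂ V := by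
    unfold mm
    rw [div_mul_cancel₀ _ hd0.ne']
  have h5 : mm ρ E Λ R z * Module.finrank ℂ V <
      Real.exp (Th q Λ R) * Real.exp (Λ * (q : ℝ) ^ R / 16) :=
    mul_lt_mul' hcon hd hd0.le (Real.exp_pos _)
  rw [← Real.exp_add] at h5
  have h6 : t * a < Th q Λ R + Λ * (q : ℝ) ^ R / 16 := by
    rw [← Real.exp_lt_exp]
    linarith [h1.trans (h2.trans (le_of_eq h4))]
  have hqR : 0 < (q : ℝ) ^ R := by
    have : (0 : ℝ) < q := by exact_mod_cast (by omega : 0 < q)
    positivity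
  unfold Th at h6
  rw [ht] at h6
  by_contra hc
  push Not at hc
  have h7 : Λ * (q : ℝ) ^ R * (1 / 8) < Λ * (q : ℝ) ^ R * a :=
    mul_lt_mul_of_pos_left hc (by positivity)
  nlinarith

end RC14
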